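import Pool.Agent.P.MP_78d079_nt.PNT
import Pool.Agent.Lib.Sieve.CharLower
import Pool.Agent.Lib.Sieve.Shifted

-- part Pool.Agent.P.MP_78d079_nt.Mert
section

/-!
The third theorem of Mertens, upper bound with an error that is small against `1 / log x`.
-/

namespace Pool.Agent.P.MP_78d079_nt

open Filter Topology Chebyshev Finset Real
open ArithmeticFunction (vonMangoldt vonMangoldt_nonneg vonMangoldt_apply_pow
  vonMangoldt_apply_prime)
open Pool.Agent.Lib.Sieve

/-- The weight of a prime power. -/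
noncomputable def aa (n : ℕ) : ℝ := vonMangoldt n / n / log n

theorem aa_nonneg (n : ℕ) : 0 ≤ aa n :=
  div_nonneg (div_nonneg vonMangoldt_nonneg n.cast_nonneg) (log_natCast_nonneg n)

/-- The partial sums of the weights. -/
noncomputable def AA (N : ℕ) : ℝ := ∑ k ∈ range (N + 1), aa k

theorem step_T {η : ℝ} (hη : 0 < η) : ∀ᶠ x : ℕ in atTop, ∀ y, x ≤ y →
    AA x - log (log (x + 1)) - η / log (x + 1) ≤ AA y - log (log (y + 1)) := by
  obtain ⟨c, hc⟩ := mertens_one
  let S : ℕ → ℝ := fun N => ∑ k ∈ range (N + 1), vonMangoldt k / k - log (N + 1)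
  have hS : Tendsto S atTop (𝓝 c) := by
    have := hc.sub tendsto_log_nat_add_one_sub_log
    rw [sub_zero] at this
    exact this.congr fun N => by simp only [S]; ring
  obtain ⟨N, hN⟩ := eventually_atTop.1 (hS.eventually (Metric.ball_mem_nhds c (half_pos hη)))
  filter_upwards [eventually_ge_atTop N, eventually_ge_atTop 1] with x hx hx1 y hy
  have hU : ∀ y, x ≤ y → 0 ≤ S y - S x + η := fun y hy => by
    have h1 := abs_lt.1 (hN x hx)
    have h2 := abs_lt.1 (hN y (hx.trans hy))
    linarith [h1.2, h2.1]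
  have hl : ∀ y : ℕ, x ≤ y → 0 < log ((y : ℝ) + 1) := fun y hy => log_pos (by
    have : (1 : ℝ) ≤ y := by exact_mod_cast hx1.trans hy
    linarith)
  have key : AA x - log (log (x + 1)) - η / log (x + 1) ≤
      AA y - log (log (y + 1)) - (S y - S x + η) / log (y + 1) := by
    induction y, hy using Nat.le_induction with
    | base => simp
    | succ y hy ih =>
      refine ih.trans ?_
      have h1 := hl y hy
      have h2 := hl (y + 1) (by omega)
      have h3 := hU (y + 1) (by omega)
      have h4 : AA (y + 1) = AA y + vonMangoldt (y + 1) / (y + 1) / log (y + 1) := by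
        simp [AA, sum_range_succ _ (y + 1), aa]
      have h5 : S (y + 1) = S y + vonMangoldt (y + 1) / (y + 1) -
          (log ((y + 1 : ℕ) + 1) - log (y + 1)) := by
        simp only [S, sum_range_succ _ (y + 1)]; push_cast; ring
      have h6 : log ((y : ℝ) + 1) ≤ log ((y + 1 : ℕ) + 1) :=
        log_le_log (by positivity) (by push_cast; linarith)
      rw [h4]
      set l := log ((y : ℝ) + 1)
      set l' := log (((y + 1 : ℕ) : ℝ) + 1)
      have h7 : log l' - log l ≤ (l' - l) / l := by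
        rw [← log_div h2.ne' h1.ne', sub_div, div_self h1.ne']
        exact log_le_sub_one_of_pos (by positivity)
      have h8 : (S (y + 1) - S x + η) / l' ≤ (S (y + 1) - S x + η) / l := by gcongr
      have h9 : (S (y + 1) - S x + η) / l = (S y - S x + η) / l +
          vonMangoldt (y + 1) / (y + 1) / l - (l' - l) / l := by rw [h5]; ring
      linarith
  have := div_nonneg (hU y hy) (hl y hy).le
  linarith

theorem aa_mul (κ : ℝ) (n : ℕ) : cl (1 + κ) n = aa n * (n : ℝ) ^ (-κ) := by
  unfold cl aa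
  rcases Nat.eq_zero_or_pos n with rfl | hn
  · simp
  · have : (0 : ℝ) < n := by exact_mod_cast hn
    rw [neg_add, rpow_add this, rpow_neg_one]
    ring

theorem step_L {η : ℝ} (hη : 0 < η) :
    ∃ᶠ y : ℕ in atTop, AA y - log (log (y + 1)) ≤ eulerMascheroniConstant + η := by
  by_contra hcon
  rw [not_frequently] at hcon
  let E : ℕ → ℕ := fun j => ⌊exp j⌋₊
  have hE : Tendsto E atTop atTop :=
    tendsto_nat_floor_atTop.comp (tendsto_exp_atTop.comp tendsto_natCast_atTop_atTop)
  have hEm : ∀ j, E j ≤ E (j + 1) := fun j =>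
    Nat.floor_le_floor (exp_le_exp.2 (by push_cast; linarith))
  let C : ℕ → ℝ := fun j => AA (E j) - harmonic j
  obtain ⟨J, hJ⟩ : ∃ J : ℕ, ∀ j, J ≤ j → η / 2 ≤ C j := by
    refine eventually_atTop.1 ?_
    filter_upwards [hE.eventually hcon, tendsto_harmonic_sub_log.eventually
      (gt_mem_nhds (lt_add_of_pos_right _ (half_pos hη))), eventually_ge_atTop 1] with j h1 h2 h3
    have h4 : (j : ℝ) ≤ log (E j + 1) := by
      rw [le_log_iff_exp_le (by positivity)]
      exact (Nat.lt_floor_add_one _).le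
    have h5 : log j ≤ log (log (E j + 1)) := log_le_log (by exact_mod_cast h3) h4
    simp only [C]
    linarith [not_le.1 h1]
  have hH : ∀ j, (harmonic (j + 1) : ℝ) = harmonic j + 1 / (j + 1) := fun j => by
    rw [harmonic_succ]; push_cast; ring
  have hlow : ∀ j, j ≤ J → -(J : ℝ) ≤ C j := fun j hj => by
    have h1 : 0 ≤ AA (E j) := sum_nonneg fun _ _ => aa_nonneg _
    have h2 : ∀ i : ℕ, (harmonic i : ℝ) ≤ i := fun i => by
      induction i with
      | zero => simp
      | succ i ih =>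
        rw [hH]
        have : 1 / ((i : ℝ) + 1) ≤ 1 := by
          rw [div_le_one (by positivity)]; linarith [i.cast_nonneg (α := ℝ)]
        push_cast; linarith
    have h3 : (j : ℝ) ≤ J := by exact_mod_cast hj
    simp only [C]
    linarith [h2 j]
  have main : ∀ κ : ℝ, 0 < κ →
      η / 2 * exp (-κ) ^ J - J * (1 - exp (-κ) ^ J) ≤ log (1 + κ) := fun κ hκ => by
    set q := exp (-κ) with hq
    have hq0 : 0 < q := exp_pos _
    have hq1 : q < 1 := exp_lt_one_iff.2 (by linarith)
    let G : ℕ → ℝ := fun j => ∑ n ∈ range (E j + 1), cl (1 + κ) n -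
      ∑ i ∈ range j, q ^ (i + 1) / (i + 1) - C j * q ^ j
    have hG : ∀ j, G j + C j * (q ^ j - q ^ (j + 1)) ≤ G (j + 1) := fun j => by
      have h1 : (AA (E (j + 1)) - AA (E j)) * q ^ (j + 1) ≤
          ∑ n ∈ range (E (j + 1) + 1), cl (1 + κ) n - ∑ n ∈ range (E j + 1), cl (1 + κ) n := by
        unfold AA
        rw [← sum_Ico_eq_sub _ (Nat.succ_le_succ (hEm j)),
          ← sum_Ico_eq_sub _ (Nat.succ_le_succ (hEm j)), sum_mul]
        refine sum_le_sum fun n hn => ?_
        rw [mem_Ico] at hn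
        have hn0 : (0 : ℝ) < n := by exact_mod_cast (by omega : 0 < n)
        rw [aa_mul]
        refine mul_le_mul_of_nonneg_left ?_ (aa_nonneg n)
        have h2 : (n : ℝ) ≤ exp (j + 1 : ℕ) :=
          (Nat.le_floor_iff (exp_pos _).le).1 (Nat.lt_succ_iff.1 hn.2)
        rw [hq, ← exp_nat_mul, rpow_def_of_pos hn0, exp_le_exp]
        have h3 := (log_le_iff_le_exp hn0).2 h2
        nlinarith
      simp only [G, C, sum_range_succ _ j, hH]
      have : q ^ (j + 1) / (j + 1) = 1 / (j + 1) * q ^ (j + 1) := by ring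
      rw [this]
      nlinarith
    have hd : ∀ j, 0 ≤ q ^ j - q ^ (j + 1) := fun j => by
      have := pow_pos hq0 j
      rw [pow_succ]; nlinarith
    have hG1 : ∀ j, j ≤ J → -(J * (1 - q ^ j)) ≤ G j := fun j hj => by
      induction j with
      | zero => simp [G, C, E, AA, aa, cl, sum_range_succ]
      | succ j ih =>
        have := mul_le_mul_of_nonneg_right (hlow j (by omega)) (hd j)
        linarith [ih (by omega), hG j]
    have hG2 : ∀ j, J ≤ j → G J + η / 2 * (q ^ J - q ^ j) ≤ G j := fun j hj => by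
      induction j, hj using Nat.le_induction with
      | base => simp
      | succ j hj ih =>
        have := mul_le_mul_of_nonneg_right (hJ j hj) (hd j)
        linarith [hG j]
    have hs := summable_cl (σ := 1 + κ) (by linarith)
    have hz : ∑' n, cl (1 + κ) n ≤ log (1 + 1 / κ) :=
      (le_log_iff_exp_le (by positivity)).2 (exp_tsum_cl_le hκ)
    have h3 : -log (1 - q) ≤ log (1 + 1 / κ) - (η / 2 * q ^ J - J * (1 - q ^ J)) := by
      refine le_of_tendsto (hasSum_pow_div_log_of_abs_lt_one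
        (by rwa [abs_of_pos hq0])).tendsto_sum_nat ?_
      filter_upwards [eventually_ge_atTop J] with j hj
      have h4 := hs.sum_le_tsum (range (E j + 1)) fun n _ => cl_nonneg _ n
      have h5 := mul_le_mul_of_nonneg_right (hJ j hj) (pow_pos hq0 j).le
      have h6 := hG2 j hj
      have h7 := hG1 J le_rfl
      simp only [G] at h6 h7 ⊢
      linarith
    have h4 : log (1 - q) ≤ log κ := log_le_log (by linarith) (by linarith [add_one_le_exp (-κ)])
    have h5 : log (1 + 1 / κ) = log (1 + κ) - log κ := by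
      rw [← log_div (by positivity) hκ.ne']; congr 1; field_simp; ring
    linarith
  have t1 : Tendsto (fun κ : ℝ => η / 2 * exp (-κ) ^ J - J * (1 - exp (-κ) ^ J) - log (1 + κ))
      (𝓝[>] 0) (𝓝 (η / 2 * exp (-0) ^ J - J * (1 - exp (-0) ^ J) - log (1 + 0))) := by
    refine Tendsto.mono_left (ContinuousAt.tendsto ?_) nhdsWithin_le_nhds
    exact ContinuousAt.sub (by fun_prop) (ContinuousAt.log (by fun_prop) (by simp))
  have t2 := le_of_tendsto t1 (b := 0) (by
    filter_upwards [self_mem_nhdsWithin] with κ hκ using sub_nonpos.2 (main κ hκ))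
  simp at t2
  linarith

theorem AA_le {η : ℝ} (hη : 0 < η) : ∀ᶠ x : ℕ in atTop,
    AA x ≤ eulerMascheroniConstant + log (log (x + 1)) + η / log (x + 1) := by
  filter_upwards [step_T hη] with x hx
  refine le_of_forall_pos_le_add fun ε hε => ?_
  obtain ⟨y, h1, h2⟩ := ((step_L hε).and_eventually (eventually_ge_atTop x)).exists
  linarith [hx y h2]

/-- The weight restricted to proper powers. -/
noncomputable def ab (n : ℕ) : ℝ := (if n.Prime then 0 else vonMangoldt n) / n

theorem ab_nonneg (n : ℕ) : 0 ≤ ab n := by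
  unfold ab
  have := vonMangoldt_nonneg (n := n)
  positivity

theorem summable_ab : Summable ab := by
  have h := ArithmeticFunction.vonMangoldt.summable_residueClass_non_primes_div (q := 1) 0
  have h1 : ∀ n, ArithmeticFunction.vonMangoldt.residueClass (q := 1) 0 n = vonMangoldt n :=
    fun n => Set.indicator_of_mem (s := {n : ℕ | (n : ZMod 1) = 0})
      (Subsingleton.elim (α := ZMod 1) _ _) _
  simp only [h1] at h
  exact h

theorem sum_ab_le {η : ℝ} (hη : 0 < η) : ∀ᶠ N : ℕ in atTop, ∀ s : Finset ℕ,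
    ∑ n ∈ s, ab n / log n ≤ ∑ n ∈ range (N + 1), ab n / log n + η / log (N + 1) := by
  obtain ⟨t, ht⟩ := summable_iff_vanishing_norm.1 summable_ab η hη
  filter_upwards [eventually_ge_atTop (t.sup id), eventually_ge_atTop 1] with N hN hN1 s
  have hl : 0 < log ((N : ℝ) + 1) := log_pos (by
    have : (1 : ℝ) ≤ N := by exact_mod_cast hN1
    linarith)
  rw [← sum_inter_add_sum_sdiff s (range (N + 1))]
  refine add_le_add (sum_le_sum_of_subset_of_nonneg inter_subset_right fun n _ _ =>
    div_nonneg (ab_nonneg n) (log_natCast_nonneg n)) ?_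
  have h1 := ht (s \ range (N + 1)) (disjoint_left.2 fun n hn hn' => by
    have : n ≤ t.sup id := le_sup (f := id) hn'
    simp at hn; omega)
  calc _ ≤ ∑ n ∈ s \ range (N + 1), ab n / log (N + 1) := by
        refine sum_le_sum fun n hn => ?_
        have : N + 1 ≤ n := by simp at hn; omega
        have h2 : (N : ℝ) + 1 ≤ n := by exact_mod_cast this
        have := ab_nonneg n
        gcongr
    _ ≤ _ := by
        rw [← sum_div]
        gcongr
        exact (le_abs_self _).trans h1.le

theorem sum_G_le (S : Finset ℕ) (hS : ∀ p ∈ S, p.Prime) {B : ℝ}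
    (hB : ∀ s : Finset ℕ, ∑ n ∈ s, ab n / log n ≤ B) :
    ∑ p ∈ S, -log (1 - 1 / (p : ℝ)) ≤ ∑ p ∈ S, 1 / (p : ℝ) + B := by
  have h1 : ∀ p ∈ S, HasSum (fun j : ℕ => ab (p ^ (j + 2)) / log (p ^ (j + 2) : ℕ))
      (-log (1 - 1 / (p : ℝ)) - 1 / p) := fun p hp => by
    have hp1 : (1 : ℝ) < p := by exact_mod_cast (hS p hp).one_lt
    have h2 := (hasSum_nat_add_iff' 1).2 (hasSum_pow_div_log_of_abs_lt_one (x := 1 / (p : ℝ))
      (by rw [abs_of_pos (by positivity), div_lt_one (by linarith)]; exact hp1))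
    simp only [range_one, sum_singleton, zero_add, pow_one, Nat.cast_zero, div_one] at h2
    refine h2.congr_fun ?_
    intro j
    have h3 := log_pos hp1
    unfold ab
    rw [if_neg (Nat.Prime.not_prime_pow (by omega)), vonMangoldt_apply_pow (by omega),
      vonMangoldt_apply_prime (hS p hp)]
    push_cast
    rw [log_pow, one_div, inv_pow]
    push_cast
    field_simp
    ring
  have h2 := tendsto_finsetSum S fun p hp => (h1 p hp).tendsto_sum_nat
  have h3 := le_of_tendsto' h2 (b := B) fun J => by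
    rw [← sum_product' (f := fun p j => ab (p ^ (j + 2)) / log (p ^ (j + 2) : ℕ)),
      ← sum_image (g := fun x : ℕ × ℕ => x.1 ^ (x.2 + 2)) (f := fun n => ab n / log n)]
    · exact hB _
    · intro x hx y hy hxy
      have := Nat.Prime.pow_inj (hS _ (mem_product.1 hx).1) (hS _ (mem_product.1 hy).1)
        (m := x.2 + 1) (n := y.2 + 1) hxy
      exact Prod.ext this.1 (by omega)
  rw [sum_sub_distrib] at h3
  linarith

theorem AA_eq (N : ℕ) :
    AA N = ∑ p ∈ Nat.primesLE N, 1 / (p : ℝ) + ∑ n ∈ range (N + 1), ab n / log n := by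
  rw [Nat.primesLE_eq_filter_range, sum_filter, ← sum_add_distrib]
  refine sum_congr rfl fun n _ => ?_
  unfold aa ab
  split_ifs with h
  · have h3 : 0 < log n := log_pos (by exact_mod_cast h.one_lt)
    rw [vonMangoldt_apply_prime h]
    field_simp
    simp
  · simp

theorem mertens_three {η : ℝ} (hη : 0 < η) : ∀ᶠ x : ℝ in atTop, ∀ S : Finset ℕ,
    (∀ p ∈ S, p.Prime) → ∑ p ∈ S, log p ≤ x →
      ∑ p ∈ S, -log (1 - 1 / (p : ℝ)) ≤ eulerMascheroniConstant + log (log x) + η / log x := by
  have hη4 : 0 < η / 4 := by positivity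
  filter_upwards [tendsto_nat_floor_atTop.eventually ((AA_le hη4).and (sum_ab_le hη4)),
    theta_lower hη4, eventually_gt_atTop 1, eventually_ge_atTop (4 / η)]
    with x ⟨h1, h2⟩ h3 hx hx' S hS hθ
  have hx0 : 0 < x := by linarith
  have hl := log_pos hx
  have h4 := sum_G_le S hS h2
  rw [AA_eq] at h1
  have h5 : ∑ p ∈ S, (1 / (p : ℝ) - log p / (x * log x)) ≤
      ∑ p ∈ Nat.primesLE ⌊x⌋₊, (1 / (p : ℝ) - log p / (x * log x)) := by
    rw [← sum_inter_add_sum_sdiff S (Nat.primesLE ⌊x⌋₊)]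
    refine (add_le_add (sum_le_sum_of_subset_of_nonneg inter_subset_right fun p hp _ => ?_)
      (sum_nonpos fun p hp => ?_)).trans (add_zero _).le
    · rw [Nat.mem_primesLE] at hp
      have hp0 : (0 : ℝ) < p := by exact_mod_cast hp.2.pos
      have hpx : (p : ℝ) ≤ x := (Nat.le_floor_iff hx0.le).1 hp.1
      have := log_le_log hp0 hpx
      have := log_natCast_nonneg p
      rw [sub_nonneg, div_le_div_iff₀ (by positivity) hp0]
      nlinarith
    · rw [Finset.mem_sdiff, Nat.mem_primesLE] at hp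
      have hpx : x < p := by
        by_contra h
        exact hp.2 ⟨Nat.le_floor (not_lt.1 h), hS p hp.1⟩
      have := log_le_log hx0 hpx.le
      rw [sub_nonpos, div_le_div_iff₀ (by linarith) (by positivity)]
      nlinarith
  rw [sum_sub_distrib, sum_sub_distrib, ← sum_div, ← sum_div, ← theta_eq_sum_primesLE] at h5
  have h6 : (∑ p ∈ S, log p) / (x * log x) - theta x / (x * log x) ≤ η / 4 / log x := by
    rw [← sub_div, div_le_div_iff₀ (by positivity) hl]
    have : ∑ p ∈ S, log p - theta x ≤ η / 4 * x := by linarith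
    nlinarith
  have h7 : log x ≤ log (⌊x⌋₊ + 1) := log_le_log hx0 (Nat.lt_floor_add_one x).le
  have h8 : η / 4 / log (⌊x⌋₊ + 1) ≤ η / 4 / log x := by gcongr
  have h9 : log (⌊x⌋₊ + 1) - log x ≤ η / 4 := by
    rw [← log_div (by positivity) hx0.ne']
    refine (log_le_sub_one_of_pos (by positivity)).trans ?_
    rw [sub_le_iff_le_add, div_le_iff₀ hx0]
    rw [div_le_iff₀ hη] at hx'
    linarith [Nat.floor_le hx0.le]
  have h10 : log (log (⌊x⌋₊ + 1)) - log (log x) ≤ η / 4 / log x := by
    rw [← log_div (by linarith) hl.ne']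
    refine (log_le_sub_one_of_pos (div_pos (by linarith) hl)).trans ?_
    rw [div_sub_one hl.ne']
    gcongr
  have : η / log x = 4 * (η / 4 / log x) := by ring
  linarith

end Pool.Agent.P.MP_78d079_nt
end

-- part Pool.Agent.P.MP_78d079_nt.Count
section

/-!
Few primes `p ≤ Y` have a prime factor of `p + 1` above `(Y + 1) / M`, and the mass inequality.
-/

namespace Pool.Agent.P.MP_78d079_nt

open Finset Real Filter
open Pool.Agent.Lib.Sieve

theorem twin_le {N m : ℕ} (hN : 2 ^ 120 ≤ N) (hm : 0 < m) :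
    (((Ioc 0 N).filter (fun c => c.Prime ∧ (m * c - 1).Prime)).card : ℝ) ≤
      (25600 * exp 6 * ew m + 600) * (N / log N ^ 2) := by
  classical
  obtain ⟨y, hy8, hlog, hyN, herr⟩ := exists_level hN
  have hl := two_le_log hy8
  have hN1 : (1 : ℝ) < N := by
    have : 1 < N := lt_of_lt_of_le (by norm_num) hN
    exact_mod_cast this
  have hlN : 0 < log N := log_pos hN1
  let Ω : ℕ → Finset ℕ := fun p => insert 0 (res ((p - 1) * m) p)
  have h1 := sieve_upper Ω (sp y) hy8 (fun p hp => mem_sp hp)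
    (fun p hp => insert_subset (mem_range.2 (mem_sp hp).1.pos) (res_subset _ _))
    (fun p hp => (card_insert_le _ _).trans (Nat.succ_le_succ (card_res_le (mem_sp hp).1)))
    (N + 1)
  have hsub : (Ioc 0 N).filter (fun c => c.Prime ∧ (m * c - 1).Prime) ⊆
      Ioc 0 (y + 1) ∪ (range (N + 1)).filter (fun n => ∀ p ∈ sp y, n % p ∉ Ω p) := by
    intro c hc
    rw [mem_filter, mem_Ioc] at hc
    by_cases hcy : c ≤ y + 1
    · exact mem_union_left _ (mem_Ioc.2 ⟨hc.1.1, hcy⟩)
    · refine mem_union_right _ (mem_filter.2 ⟨mem_range.2 (by omega), fun p hp => ?_⟩)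
      obtain ⟨hpp, -, hpy⟩ := mem_sp hp
      simp only [Ω, mem_insert, mod_mem_res hpp.pos, not_or]
      have hmc : c ≤ m * c := Nat.le_mul_of_pos_left c hm
      refine ⟨fun h => ?_, fun h => ?_⟩
      · have := (Nat.prime_dvd_prime_iff_eq hpp hc.2.1).1 (Nat.dvd_of_mod_eq_zero h)
        omega
      · have h2 : (p - 1) * m * c + 1 + (m * c - 1) = p * (m * c) := by
          obtain ⟨k, rfl⟩ : ∃ k, p = k + 1 := ⟨p - 1, by have := hpp.pos; omega⟩
          have : 1 ≤ m * c := by omega
          rw [Nat.add_sub_cancel, add_assoc, Nat.add_sub_cancel' this]; ring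
        have h3 : p ∣ m * c - 1 := (Nat.dvd_add_right h).1 (h2 ▸ dvd_mul_right _ _)
        have := (Nat.prime_dvd_prime_iff_eq hpp hc.2.2).1 h3
        omega
  have h2 : (((Ioc 0 N).filter (fun c => c.Prime ∧ (m * c - 1).Prime)).card : ℝ) ≤
      y + 1 + (((range (N + 1)).filter (fun n => ∀ p ∈ sp y, n % p ∉ Ω p)).card : ℝ) := by
    have := (card_le_card hsub).trans (card_union_le _ _)
    rw [Nat.card_Ioc, Nat.sub_zero] at this
    exact_mod_cast this
  have h3 : ∀ p ∈ sp y, 2 * (1 / (p : ℝ)) - (if p ∣ m then 1 / (p : ℝ) else 0) ≤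
      ((Ω p).card : ℝ) / p := by
    intro p hp
    obtain ⟨hpp, -, -⟩ := mem_sp hp
    have hp0 : (0 : ℝ) < p := by exact_mod_cast hpp.pos
    have h4 : (Ω p).card = (res ((p - 1) * m) p).card + 1 :=
      card_insert_of_notMem (zero_not_mem_res hpp)
    split_ifs with h
    · have : (1 : ℝ) / p ≤ ((Ω p).card : ℝ) / p := by
        gcongr; exact_mod_cast (by omega : 1 ≤ (Ω p).card)
      linarith
    · have h5 := card_pos.2 (res_nonempty (s := (p - 1) * m) hpp fun h6 => by
        rcases (Nat.Prime.dvd_mul hpp).1 h6 with h7 | h7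
        · have := Nat.le_of_dvd (by have := hpp.two_le; omega) h7
          have := hpp.pos
          omega
        · exact h h7)
      have h6 : (2 : ℝ) / p ≤ ((Ω p).card : ℝ) / p := by
        gcongr; exact_mod_cast (by omega : 2 ≤ (Ω p).card)
      have : 2 * (1 / (p : ℝ)) = 2 / p := by ring
      linarith
  have h4 := sum_le_sum h3
  rw [sum_sub_distrib, ← mul_sum] at h4
  have h5 := sum_ite_dvd_le (sp y) (fun p hp => (mem_sp hp).1) hm.ne'
  have h8 := le_sum_sp (y := y) (by omega)
  have h9 : exp (-∑ p ∈ sp y, ((Ω p).card : ℝ) / p) ≤ exp 6 * ew m / log y ^ 2 := by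
    have : log y ^ 2 = exp (2 * log (log y)) := by
      rw [show (2 : ℝ) * log (log y) = (2 : ℕ) * log (log y) by norm_num, exp_nat_mul,
        exp_log (by linarith)]
    rw [this, ew, ← exp_add, ← exp_sub]
    exact exp_le_exp.2 (by linarith)
  have hE := ew_pos m
  have h10 : 2 * ((N + 1 : ℕ) : ℝ) * exp (-∑ p ∈ sp y, ((Ω p).card : ℝ) / p) ≤
      25600 * exp 6 * ew m * (N / log N ^ 2) := by
    have h11 : ((N + 1 : ℕ) : ℝ) ≤ 2 * N := by push_cast; linarith
    have h12 : (log N / 80) ^ 2 ≤ log y ^ 2 := by gcongr; linarith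
    calc _ ≤ 2 * (2 * N) * (exp 6 * ew m / log y ^ 2) := by gcongr
      _ ≤ 2 * (2 * N) * (exp 6 * ew m / (log N / 80) ^ 2) := by gcongr
      _ = _ := by field_simp; norm_num
  have h13 : (1 : ℝ) ≤ y := by exact_mod_cast (by omega : 1 ≤ y)
  have h14 : (0 : ℝ) ≤ (y : ℝ) ^ 36 := by positivity
  linarith

/-- The primes `q` with `q * M ≤ Y + 1`. -/
def low (Y M : ℕ) : Finset ℕ := (Nat.primesLE (Y + 1)).filter (fun q => q * M ≤ Y + 1)

/-- The primes `p ≤ Y` such that `p + 1` has a prime factor that is not low. -/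
def bad (Y M : ℕ) : Finset ℕ :=
  (Nat.primesLE Y).filter (fun p => ¬ (p + 1).primeFactors ⊆ low Y M)

theorem card_bad (M : ℕ) : ∃ C : ℝ, ∀ Y : ℕ, 2 ^ 120 ≤ Y →
    ((bad Y M).card : ℝ) ≤ C * ((Y + 1 : ℕ) / log (Y + 1 : ℕ) ^ 2) := by
  refine ⟨∑ m ∈ Ioc 0 M, (25600 * exp 6 * ew m + 600), fun Y hY => ?_⟩
  have h1 : bad Y M ⊆ (Ioc 0 M).biUnion fun m =>
      ((Ioc 0 (Y + 1)).filter (fun c => c.Prime ∧ (m * c - 1).Prime)).image fun c => m * c - 1 := by
    intro p hp
    unfold bad at hp
    rw [mem_filter, Nat.mem_primesLE, not_subset] at hp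
    obtain ⟨⟨hpY, hpp⟩, q, hq, hq'⟩ := hp
    obtain ⟨hqp, ⟨m, hm⟩, -⟩ := Nat.mem_primeFactors.1 hq
    have hm0 : 0 < m := Nat.pos_of_ne_zero (by rintro rfl; omega)
    have hqY : q ≤ Y + 1 := (Nat.le_mul_of_pos_right q hm0).trans (by omega)
    have h2 : Y + 1 < q * M := by
      by_contra h
      exact hq' (mem_filter.2 ⟨Nat.mem_primesLE.2 ⟨hqY, hqp⟩, not_lt.1 h⟩)
    have h3 : m < M := Nat.lt_of_mul_lt_mul_left (a := q) (by omega)
    have h4 : m * q - 1 = p := by rw [mul_comm]; omega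
    exact mem_biUnion.2 ⟨m, mem_Ioc.2 ⟨hm0, h3.le⟩, mem_image.2
      ⟨q, mem_filter.2 ⟨mem_Ioc.2 ⟨hqp.pos, hqY⟩, hqp, h4 ▸ hpp⟩, h4⟩⟩
  have h2 := (card_le_card h1).trans (card_biUnion_le.trans (sum_le_sum fun m _ => card_image_le))
  rw [sum_mul]
  refine le_trans (by exact_mod_cast h2) (sum_le_sum fun m hm =>
    twin_le (by omega) (mem_Ioc.1 hm).1)

/-- The logarithmic mass of `x` on the primes of `Q`. -/
noncomputable def lam (Q : Finset ℕ) (x : ℕ) : ℝ := ∑ q ∈ Q, x.factorization q * log q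

theorem lam_le_add (Q : Finset ℕ) {d a b : ℕ} (ha : a ≠ 0) (hb : b ≠ 0) (h : d ∣ a * b) :
    lam Q d ≤ lam Q a + lam Q b := by
  unfold lam
  rw [← sum_add_distrib]
  refine sum_le_sum fun q _ => ?_
  have h1 := (Nat.factorization_le_iff_dvd (ne_zero_of_dvd_ne_zero (mul_ne_zero ha hb) h)
    (mul_ne_zero ha hb)).2 h q
  rw [Nat.factorization_mul ha hb, Finsupp.add_apply] at h1
  rw [← add_mul]
  exact mul_le_mul_of_nonneg_right (by exact_mod_cast h1) (log_natCast_nonneg q)

theorem lam_primeFactors (x : ℕ) : lam x.primeFactors x = log x := by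
  rw [log_nat_eq_sum_factorization]; rfl

theorem lam_mono {Q R : Finset ℕ} (h : Q ⊆ R) (x : ℕ) : lam Q x ≤ lam R x :=
  sum_le_sum_of_subset_of_nonneg h fun q _ _ =>
    mul_nonneg (Nat.cast_nonneg _) (log_natCast_nonneg q)

theorem lam_le_log (Q : Finset ℕ) (x : ℕ) : lam Q x ≤ log x := by
  rw [← lam_primeFactors]
  refine le_trans (le_of_eq ?_) (lam_mono (inter_subset_right (s₁ := Q)) x)
  refine (sum_subset inter_subset_left fun q hq hq' => ?_).symm
  have : q ∉ x.factorization.support := fun h => hq' (mem_inter.2 ⟨hq, h⟩)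
  simp [Finsupp.notMem_support_iff.1 this]

theorem mass {n u : ℕ} (hn : n ≠ 0) (hu : u ≠ 0) (h : ∑ d ∈ n.divisors, d ∣ u * n) (Y M : ℕ) :
    2 * ∑ p ∈ n.primeFactors.filter (fun p => p ≤ Y ∧ p ∉ low Y M), log p ≤
      log n + log u + (bad Y M).card * log (Y + 1 : ℕ) := by
  set T := n.primeFactors.filter (fun p => p ≤ Y ∧ p ∉ low Y M)
  let T1 := T.filter (fun p => n.factorization p = 1)
  let T2 := T1.filter (fun p => (p + 1).primeFactors ⊆ low Y M)
  have hT : ∀ p ∈ T, p.Prime := fun p hp => Nat.prime_of_mem_primeFactors (mem_filter.1 hp).1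
  have h1 : ∏ p ∈ T2, (p + 1) ∣ u * n := by
    refine dvd_trans ?_ h
    rw [Nat.sum_divisors hn]
    refine dvd_trans (dvd_of_eq (prod_congr rfl fun p hp => ?_)) (prod_dvd_prod_of_subset T2 _ _
      ((filter_subset _ _).trans ((filter_subset _ _).trans (filter_subset _ _))))
    rw [(mem_filter.1 (mem_filter.1 hp).1).2]
    simp [sum_range_succ, add_comm]
  have h2 : log (∏ p ∈ T2, (p + 1) : ℕ) ≤ lam (low Y M) (∏ p ∈ T2, (p + 1)) := by
    rw [← lam_primeFactors]
    refine lam_mono (fun q hq => ?_) _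
    obtain ⟨hq1, hq2, -⟩ := Nat.mem_primeFactors.1 hq
    obtain ⟨p, hp, hqp⟩ := (Prime.dvd_finsetProd_iff hq1.prime _).1 hq2
    exact (mem_filter.1 hp).2 (Nat.mem_primeFactors.2 ⟨hq1, hqp, by omega⟩)
  have h3 : ∑ p ∈ T2, log p ≤ log (∏ p ∈ T2, (p + 1) : ℕ) := by
    push_cast
    rw [log_prod fun p _ => by positivity]
    refine sum_le_sum fun p hp => log_le_log ?_ (by linarith)
    exact_mod_cast (hT p (mem_filter.1 (mem_filter.1 hp).1).1).pos
  have h4 := lam_le_add (low Y M) hu hn h1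
  have h5 := lam_le_log (low Y M) u
  have h6 : lam (low Y M) n + lam T n ≤ log n := by
    refine le_trans (le_of_eq ?_) (lam_le_log (low Y M ∪ T) n)
    exact (sum_union (disjoint_right.2 fun p hp => (mem_filter.1 hp).2.2)).symm
  have h7 : 2 * ∑ p ∈ T, log p ≤ lam T n + ∑ p ∈ T1, log p := by
    unfold lam
    rw [sum_filter (s := T), mul_sum, ← sum_add_distrib]
    refine sum_le_sum fun p hp => ?_
    have h8 := log_natCast_nonneg p
    have h9 : n.factorization p ≠ 0 := Finsupp.mem_support_iff.1 (mem_filter.1 hp).1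
    split_ifs with h10
    · rw [h10]; push_cast; linarith
    · have : (2 : ℝ) ≤ n.factorization p := by exact_mod_cast (by omega : 2 ≤ n.factorization p)
      nlinarith
  have h8 : ∑ p ∈ T1, log p ≤ ∑ p ∈ T2, log p + (bad Y M).card * log (Y + 1 : ℕ) := by
    rw [← sum_filter_add_sum_filter_not T1 (fun p => (p + 1).primeFactors ⊆ low Y M)]
    gcongr
    rw [← nsmul_eq_mul]
    refine le_trans (sum_le_sum_of_subset_of_nonneg (fun p hp => ?_) fun p _ _ =>
      log_natCast_nonneg p) (sum_le_card_nsmul _ _ _ fun p hp => ?_)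
    · have hp' := (mem_filter.1 (mem_filter.1 hp).1).1
      exact mem_filter.2 ⟨Nat.mem_primesLE.2 ⟨(mem_filter.1 hp').2.1, hT p hp'⟩,
        (mem_filter.1 hp).2⟩
    · have := Nat.mem_primesLE.1 (mem_filter.1 hp).1
      exact log_le_log (by exact_mod_cast this.2.pos) (by exact_mod_cast (by omega))
  linarith

theorem abund_le {n : ℕ} (hn : n ≠ 0) : ((∑ d ∈ n.divisors, d : ℕ) : ℝ) / n ≤
    exp (∑ p ∈ n.primeFactors, -log (1 - 1 / (p : ℝ))) := by
  have hn0 : (0 : ℝ) < n := by exact_mod_cast Nat.pos_of_ne_zero hn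
  have hpr : (n : ℝ) = ∏ p ∈ n.primeFactors, (p : ℝ) ^ n.factorization p := by
    exact_mod_cast (Nat.prod_factorization_pow_eq_self hn).symm
  rw [div_le_iff₀ hn0, Nat.sum_divisors hn, exp_sum, hpr, ← prod_mul_distrib]
  push_cast
  refine prod_le_prod (fun p _ => by positivity) fun p hp => ?_
  have hp1 : (1 : ℝ) < p := by exact_mod_cast (Nat.prime_of_mem_primeFactors hp).one_lt
  have h1 : 0 < 1 - 1 / (p : ℝ) := by rw [sub_pos, div_lt_one (by linarith)]; exact hp1
  rw [exp_neg, exp_log h1, geom_sum_eq hp1.ne', div_le_iff₀ (by linarith)]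
  have : (1 - 1 / (p : ℝ))⁻¹ * p ^ n.factorization p * (p - 1) = p ^ (n.factorization p + 1) := by
    have : (p : ℝ) - 1 ≠ 0 := by linarith
    field_simp
    ring
  linarith

end Pool.Agent.P.MP_78d079_nt
end

-- part Pool.Agent.P.MP_78d079_nt.Main
section

/-!
The abundancy of `n` against the size of `n` divided by the root of `gcd (n, σ n)`.
-/

namespace Pool.Agent.P.MP_78d079_nt

open Finset Real Filter Topology Chebyshev

theorem neg_log_le {p : ℝ} (hp : 2 ≤ p) : -log (1 - 1 / p) ≤ 2 / p := by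
  have h1 : 0 < 1 - 1 / p := by rw [sub_pos, div_lt_one (by linarith)]; linarith
  rw [← log_inv]
  refine (log_le_sub_one_of_pos (inv_pos.2 h1)).trans ?_
  have : (1 - 1 / p)⁻¹ - 1 = 1 / (p - 1) := by
    have : p - 1 ≠ 0 := by linarith
    field_simp
    ring
  rw [this, div_le_div_iff₀ (by linarith) (by linarith)]
  linarith

theorem theta_primeFactors (n : ℕ) (S : Finset ℕ) (h : S ⊆ n.primeFactors) :
    ∑ p ∈ S, log p ≤ log n := by
  refine le_trans (sum_le_sum fun p hp => ?_) (lam_le_log S n)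
  have h9 : n.factorization p ≠ 0 := Finsupp.mem_support_iff.1 (h hp)
  have : (1 : ℝ) ≤ n.factorization p := by exact_mod_cast Nat.pos_of_ne_zero h9
  exact le_mul_of_one_le_left (log_natCast_nonneg p) this

theorem theta_low (Y : ℕ) {M : ℕ} (hM : 0 < M) :
    ∑ p ∈ low Y M, log p ≤ log 4 * ((Y + 1 : ℕ) / M) := by
  refine le_trans ?_ (theta_le_log4_mul_x (by positivity))
  rw [theta_eq_sum_primesLE, Nat.floor_div_eq_div]
  refine sum_le_sum_of_subset_of_nonneg (fun p hp => ?_) fun p _ _ => log_natCast_nonneg p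
  have := mem_filter.1 hp
  exact Nat.mem_primesLE.2 ⟨(Nat.le_div_iff_mul_le hM).2 this.2, (Nat.mem_primesLE.1 this.1).2⟩

theorem core {δ : ℝ} (hδ : 0 < δ) (hδ1 : δ ≤ 1 / 8) : ∀ᶠ L : ℝ in atTop, ∀ n : ℕ, n ≠ 0 →
    log n = L → ((∑ d ∈ n.divisors, d : ℕ) : ℝ) / n ≤ exp eulerMascheroniConstant *
      (log (L - log (Nat.gcd n (∑ d ∈ n.divisors, d)) / 2) + 8 * δ) := by
  obtain ⟨K, hK⟩ := exists_nat_ge (2 / δ)
  have hK' : 2 ≤ K * δ := (div_le_iff₀ hδ).1 hK
  have hK2 : (16 : ℝ) ≤ K := by nlinarith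
  obtain ⟨M, hM⟩ := exists_nat_ge (log 4 * (K + 1) / δ + 1)
  have h40 : 0 ≤ log 4 := log_nonneg (by norm_num)
  have hM1 : (1 : ℝ) ≤ M := le_trans (le_add_of_nonneg_left (by positivity)) hM
  have hM0 : 0 < M := by exact_mod_cast (by linarith : (0 : ℝ) < M)
  have hM' : log 4 * (K + 1) ≤ M * δ := (div_le_iff₀ hδ).1 (by linarith)
  obtain ⟨C, hC⟩ := card_bad M
  obtain ⟨x0, hx0⟩ := eventually_atTop.1 (mertens_three hδ)
  have t1 : Tendsto (fun L : ℝ => (eulerMascheroniConstant + 1) / L + log L / L) atTop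
      (𝓝 (0 + 0)) :=
    (tendsto_const_nhds.div_atTop tendsto_id).add isLittleO_log_id_atTop.tendsto_div_nhds_zero
  filter_upwards [mertens_three one_pos, t1.eventually (gt_mem_nhds (by simpa using hδ)),
    eventually_ge_atTop (2 * x0), eventually_ge_atTop (2 * exp 1), eventually_ge_atTop (2 ^ 120),
    tendsto_log_atTop.eventually_ge_atTop (|C| * (K + 1) / δ)] with L a1 a2 a3 a4 a5 a6 n hn hL
  have he : 2 ≤ exp 1 := by linarith [add_one_le_exp (1 : ℝ)]
  have hL0 : 0 < L := by linarith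
  have hlL : 1 ≤ log L := (le_log_iff_exp_le hL0).2 (by linarith)
  set s := ∑ d ∈ n.divisors, d with hs
  set g := Nat.gcd n s
  have hn0 : (0 : ℝ) < n := by exact_mod_cast Nat.pos_of_ne_zero hn
  have hs0 : 0 < s := sum_pos' (fun _ _ => Nat.zero_le _)
    ⟨n, Nat.mem_divisors_self n hn, Nat.pos_of_ne_zero hn⟩
  have hg0 : 0 < g := Nat.gcd_pos_of_pos_right _ hs0
  have hgL : log g ≤ L := hL ▸ log_le_log (by exact_mod_cast hg0)
    (by exact_mod_cast Nat.gcd_le_left _ (Nat.pos_of_ne_zero hn))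
  have hg1 := log_natCast_nonneg g
  obtain ⟨u, hu⟩ : g ∣ s := Nat.gcd_dvd_right _ _
  have hu0 : u ≠ 0 := by rintro rfl; omega
  have hP : ∀ p ∈ n.primeFactors, p.Prime := fun p hp => Nat.prime_of_mem_primeFactors hp
  have b1 : log u ≤ δ * L + L - log g := by
    have h1 := (log_le_iff_le_exp (by positivity)).2 (abund_le hn)
    have h2 := a1 _ hP (hL ▸ theta_primeFactors n _ Subset.rfl)
    have h3 : log (log L) ≤ log L := (log_le_sub_one_of_pos (by linarith)).trans (by linarith)
    have h4 : 1 / log L ≤ 1 := by rw [div_le_one (by linarith)]; exact hlL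
    rw [← add_div, div_lt_iff₀ hL0] at a2
    rw [← hs, log_div (by positivity) hn0.ne', hu, Nat.cast_mul,
      log_mul (by positivity) (by positivity), hL] at h1
    linarith
  set Y := ⌈K * L⌉₊
  have hY1 : K * L ≤ Y := Nat.le_ceil _
  have hY2 : ((Y + 1 : ℕ) : ℝ) ≤ (K + 1) * L := by
    have := Nat.ceil_lt_add_one (show 0 ≤ K * L by positivity)
    push_cast
    linarith
  have hY3 : L ≤ Y := by nlinarith
  have b2 : (bad Y M).card * log (Y + 1 : ℕ) ≤ δ * L := by
    have h1 := hC Y (by exact_mod_cast a5.trans hY3)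
    have h2 : log L ≤ log (Y + 1 : ℕ) := log_le_log hL0 (by push_cast; linarith)
    have h3 : 0 < log (Y + 1 : ℕ) := by linarith
    rw [div_le_iff₀ hδ] at a6
    calc _ ≤ |C| * ((Y + 1 : ℕ) / log (Y + 1 : ℕ) ^ 2) * log (Y + 1 : ℕ) := by
          gcongr
          exact h1.trans (mul_le_mul_of_nonneg_right (le_abs_self C) (by positivity))
      _ = |C| * (Y + 1 : ℕ) / log (Y + 1 : ℕ) := by field_simp
      _ ≤ |C| * ((K + 1) * L) / log L := by gcongr
      _ ≤ _ := by rw [div_le_iff₀ (by linarith)]; nlinarith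
  have b3 := mass hn hu0 (by
    rw [← hs, hu, mul_comm u]; exact Nat.mul_dvd_mul_right (Nat.gcd_dvd_left _ _) u) Y M
  have b4 : ∑ p ∈ low Y M, log p ≤ δ * L := by
    refine (theta_low Y hM0).trans ?_
    rw [← mul_div_assoc, div_le_iff₀ (by linarith)]
    nlinarith [mul_le_mul_of_nonneg_left hY2 h40]
  set Lg := L - log g / 2 with hLg
  have hLg1 : L / 2 ≤ Lg := by linarith
  set x := (1 + 4 * δ) * Lg with hx
  have hx1 : Lg ≤ x := by nlinarith
  have hx2 : x ≤ Y := by nlinarith
  have hlx : 1 ≤ log x := (le_log_iff_exp_le (by linarith)).2 (by linarith)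
  have b5 : ∑ p ∈ n.primeFactors.filter (fun p => p ≤ Y), log p ≤ x := by
    rw [← sum_filter_add_sum_filter_not _ (fun p => p ∈ low Y M), filter_filter, filter_filter]
    have : ∑ p ∈ n.primeFactors.filter (fun p => p ≤ Y ∧ p ∈ low Y M), log p ≤
        ∑ p ∈ low Y M, log p :=
      sum_le_sum_of_subset_of_nonneg (fun p hp => (mem_filter.1 hp).2.2)
        fun p _ _ => log_natCast_nonneg p
    nlinarith
  have b6 := hx0 x (by linarith) _ (fun p hp => hP p (mem_filter.1 hp).1) b5
  have b7 : ∑ p ∈ n.primeFactors.filter (fun p => ¬ p ≤ Y), -log (1 - 1 / (p : ℝ)) ≤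
      δ / log x := by
    have hY0 : (0 : ℝ) < Y := by linarith
    calc _ ≤ ∑ p ∈ n.primeFactors.filter (fun p => ¬ p ≤ Y), 2 / (Y * log x) * log p := by
          refine sum_le_sum fun p hp => ?_
          have h1 := mem_filter.1 hp
          have h2 : (Y : ℝ) ≤ p := by exact_mod_cast (not_le.1 h1.2).le
          refine (neg_log_le (by exact_mod_cast (hP p h1.1).two_le)).trans ?_
          have h3 : log x ≤ log p := log_le_log (by linarith) (by linarith)
          rw [div_mul_eq_mul_div, div_le_div_iff₀ (by linarith) (by positivity)]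
          nlinarith [mul_le_mul h2 h3 (by linarith) (by linarith)]
      _ ≤ 2 / (Y * log x) * L := by
          rw [← mul_sum, ← hL]
          exact mul_le_mul_of_nonneg_left (theta_primeFactors n _ (filter_subset _ _))
            (by positivity)
      _ ≤ _ := by
          rw [div_mul_eq_mul_div, div_le_div_iff₀ (by positivity) (by linarith)]
          have : 2 * L ≤ δ * Y := by nlinarith
          nlinarith
  have b8 := abund_le hn
  rw [← sum_filter_add_sum_filter_not n.primeFactors (fun p => p ≤ Y)] at b8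
  have b9 : exp (2 * δ / log x) ≤ 1 + 2 * (2 * δ / log x) := by
    have h1 : 0 ≤ 2 * δ / log x := by positivity
    have h2 := abs_exp_sub_one_le (x := 2 * δ / log x) (by
      rw [abs_of_nonneg h1, div_le_one (by linarith)]; linarith)
    rw [abs_of_nonneg h1] at h2
    linarith [le_abs_self (exp (2 * δ / log x) - 1)]
  have b10 : log x ≤ log Lg + 4 * δ := by
    rw [hx, log_mul (by positivity) (by linarith)]
    linarith [log_le_sub_one_of_pos (show 0 < 1 + 4 * δ by positivity)]
  calc _ ≤ exp (eulerMascheroniConstant + (log (log x) + 2 * δ / log x)) := by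
        refine b8.trans (exp_le_exp.2 ?_)
        have : 2 * δ / log x = δ / log x + δ / log x := by ring
        linarith
    _ = exp eulerMascheroniConstant * (log x * exp (2 * δ / log x)) := by
        rw [exp_add, exp_add, exp_log (by linarith)]
    _ ≤ exp eulerMascheroniConstant * (log x * (1 + 2 * (2 * δ / log x))) := by gcongr
    _ = exp eulerMascheroniConstant * (log x + 4 * δ) := by field_simp; ring
    _ ≤ _ := mul_le_mul_of_nonneg_left (by linarith) (exp_pos _).le

theorem main {ε : ℝ} (hε : 0 < ε) : ∃ N : ℕ, ∀ n : ℕ, N ≤ n →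
    ((∑ d ∈ n.divisors, d : ℕ) : ℝ) / n ≤ exp eulerMascheroniConstant *
      (log (log (n / √(Nat.gcd n (∑ d ∈ n.divisors, d) : ℕ))) + ε) := by
  refine eventually_atTop.1 ?_
  filter_upwards [(tendsto_log_atTop.comp tendsto_natCast_atTop_atTop).eventually
    (core (δ := min ε 1 / 8) (by positivity) (by linarith [min_le_right ε 1])),
    eventually_ge_atTop 1] with n h hn
  have hg : 0 < Nat.gcd n (∑ d ∈ n.divisors, d) := Nat.gcd_pos_of_pos_left _ hn
  refine (h n (by omega) rfl).trans ?_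
  rw [log_div (by positivity) (by positivity), log_sqrt (by positivity)]
  exact mul_le_mul_of_nonneg_left (add_le_add le_rfl (by linarith [min_le_left ε 1]))
    (exp_pos _).le

end Pool.Agent.P.MP_78d079_nt
end
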